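import Pool.Agent.Work.MP_8daf13_an.Coeff

/-! Definitions for MP_8daf13_an. -/

open Complex Metric Filter Topology
open scoped ComplexConjugate

namespace Pool.Agent.MP_8daf13

/-- The numbers s_j = p^(-j) + p^(2-j) + ... + p^j, the Taylor coefficients of
1 / ((1 - z/p)(1 - p z)). -/
noncomputable def sC (p : ℝ) (j : ℕ) : ℝ := ∑ i ∈ Finset.range (j + 1), p ^ i / p ^ (j - i)

/-- The class of the problem, in the analytic form of the known criterion of Miller and Lin: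
f is meromorphic in the unit disc with a single simple pole at p, f(0) = 0, f'(0) = 1,
f omits w₀ and P = - z f' / (f - w₀) - p / (z - p) + p z / (1 - p z) extends to a holomorphic
function on the disc with P(0) = 1 and positive real part. -/
structure SigmaStar (p : ℝ) (w₀ : ℂ) (f : ℂ → ℂ) : Prop where
  pole : ∃ g : ℂ → ℂ, DifferentiableOn ℂ g (ball 0 1) ∧ g p ≠ 0 ∧
    ∀ z ∈ ball (0 : ℂ) 1, z ≠ p → f z = g z / (z - p)
  zero : f 0 = 0
  deriv_one : deriv f 0 = 1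
  starlike : ∃ P : ℂ → ℂ, DifferentiableOn ℂ P (ball 0 1) ∧ P 0 = 1 ∧
    (∀ z ∈ ball (0 : ℂ) 1, 0 < (P z).re) ∧
    ∀ z ∈ ball (0 : ℂ) 1, z ≠ p → f z ≠ w₀ ∧
      P z = - (z * deriv f z) / (f z - w₀) - p / (z - p) + p * z / (1 - p * z)

/-- The region of variability V_n(p, w₀) of the n-th Taylor coefficient. -/
def V (n : ℕ) (p : ℝ) (w₀ : ℂ) : Set ℂ := {a | ∃ f : ℂ → ℂ, SigmaStar p w₀ f ∧ a = tc f n}

/-- The region V_n(p): the union of V_n(p, w₀) over all finite w₀ ≠ 0. -/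
def VU (n : ℕ) (p : ℝ) : Set ℂ := {a | ∃ w₀ : ℂ, w₀ ≠ 0 ∧ a ∈ V n p w₀}

/-- The parameter m = (p + 1/p + 1/w₀)/2; the class is nonempty exactly when |m| ≤ 1. -/
noncomputable def mOf (p : ℝ) (w₀ : ℂ) : ℂ := ((p : ℂ) + 1 / p + 1 / w₀) / 2

/-- The Taylor coefficients h_k(m, ζ) of the two slit family: h_0 = 1, h_1 = -2m and
(k+2) h_(k+2) = ((k-1) m - (k+1) conj(m) ζ) h_(k+1) + (k-2) ζ h_k. -/
noncomputable def hcoef (m ζ : ℂ) : ℕ → ℂ
  | 0 => 1
  | 1 => -2 * m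
  | (k + 2) => ((((k : ℂ) - 1) * m - ((k : ℂ) + 1) * conj m * ζ) * hcoef m ζ (k + 1)
      + ((k : ℂ) - 2) * ζ * hcoef m ζ k) / ((k : ℂ) + 2)

/-- The recursion satisfied by the coefficients of H for a Schur function with Taylor
coefficients v. -/
def Rec (m : ℂ) (v h : ℕ → ℂ) : Prop :=
  h 0 = 1 ∧ ∀ k : ℕ, ((k : ℂ) + 1) * h (k + 1) = ((k : ℂ) - 2) * m * h k
    - ∑ j ∈ Finset.range k, v (k - 1 - j) *
      (conj m * ((j : ℂ) + 1) * h (j + 1) - ((j : ℂ) - 2) * h j)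

end Pool.Agent.MP_8daf13
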