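import Pool.Agent.Work.MP_8daf13_an.Bounds

open Complex Metric Filter Topology
open scoped ComplexConjugate

namespace Pool.Agent.MP_8daf13

/-- the constant Schur function as a coefficient sequence -/
noncomputable def cst (ζ : ℂ) : ℕ → ℂ := fun l => if l = 0 then ζ else 0

lemma rec_hcoef (m ζ : ℂ) : Rec m (cst ζ) (hcoef m ζ) := by
  refine ⟨rfl, fun k => ?_⟩
  rcases k with _ | k
  · simp [hcoef]
  · rw [Finset.sum_eq_single k]
    · have h : hcoef m ζ (k + 1 + 1) = ((((k : ℂ) - 1) * m - ((k : ℂ) + 1) * conj m * ζ)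
        * hcoef m ζ (k + 1) + ((k : ℂ) - 2) * ζ * hcoef m ζ k) / ((k : ℂ) + 2) := rfl
      rw [h]
      have : ((k : ℂ) + 2) ≠ 0 := by
        have : ((k + 2 : ℕ) : ℂ) ≠ 0 := by exact_mod_cast (by omega : k + 2 ≠ 0)
        push_cast at this; exact this
      have e : k + 1 - 1 - k = 0 := by omega
      simp only [e, cst, if_true]
      push_cast
      field_simp
      ring
    · intro j hj hjk
      have h1 := Finset.mem_range.mp hj
      have : k + 1 - 1 - j ≠ 0 := by omega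
      simp only [cst, if_neg this, zero_mul]
    · intro h; exact absurd (Finset.mem_range.mpr (by omega)) h

lemma cst_zero (ζ : ℂ) : cst ζ 0 = ζ := by simp [cst]

lemma cst_succ (ζ : ℂ) (l : ℕ) : cst ζ (l + 1) = 0 := by simp [cst]

lemma rec_cst_succ {m ζ : ℂ} {h : ℕ → ℂ} (H : Rec m (cst ζ) h) (K : ℕ) :
    ((K : ℂ) + 2) * h (K + 2) = ((K : ℂ) - 1) * m * h (K + 1) - ζ * XX m h K := by
  have h1 := H.succ K
  rw [Finset.sum_eq_zero, sub_zero, cst_zero] at h1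
  · exact h1
  · intro j hj
    have : K - j ≠ 0 := by have := Finset.mem_range.mp hj; omega
    simp [cst, this]

lemma XX_sub (m : ℂ) (h g : ℕ → ℂ) (j : ℕ) :
    XX m h j - XX m g j = XX m (fun k => h k - g k) j := by
  unfold XX; ring

/-- difference between a general Schur function and its value at the origin -/
lemma diff_bound {m : ℂ} (hm : ‖m‖ ≤ 1) {v h g : ℕ → ℂ} (H : Rec m v h) (hv0 : ‖v 0‖ ≤ 1)
    (hv : ∀ l, ‖v (l + 1)‖ ≤ 1 - ‖v 0‖ ^ 2) (G : Rec m (cst (v 0)) g) :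
    ‖h 3 - g 3‖ ≤ 2 / 3 * ((1 - ‖m‖ ^ 2) * (1 - ‖v 0‖ ^ 2)) ∧
    ‖h 4 - g 4‖ ≤ 13 / 6 * ((1 - ‖m‖ ^ 2) * (1 - ‖v 0‖ ^ 2)) ∧
    ∀ k, ‖h (k + 5) - g (k + 5)‖ ≤ aC (k + 5) * ((1 - ‖m‖ ^ 2) * (1 - ‖v 0‖ ^ 2)) := by
  have hρ : 0 ≤ 1 - ‖m‖ ^ 2 := by nlinarith [norm_nonneg m]
  have hσ : 0 ≤ 1 - ‖v 0‖ ^ 2 := by nlinarith [norm_nonneg (v 0)]
  set ρ := 1 - ‖m‖ ^ 2 with hρd
  set σ := 1 - ‖v 0‖ ^ 2 with hσd
  have hρσ : 0 ≤ ρ * σ := mul_nonneg hρ hσ
  have n3 := H.n3 hm hv0 hv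
  have x0 : ‖XX m h 0‖ = 2 * ρ := by
    rw [H.X0, norm_mul, norm_rho hm, hρd]; norm_num
  have x1 : ‖XX m h 1‖ ≤ 4 * ρ := by
    rw [H.X1, norm_mul, norm_mul, norm_rho hm]
    have e : ‖m + conj m * v 0‖ ≤ 2 := by
      have n1 := norm_add_le m (conj m * v 0)
      rw [norm_mul, Complex.norm_conj] at n1
      nlinarith [norm_nonneg m, norm_nonneg (v 0)]
    have : ‖(-2 : ℂ)‖ = 2 := by simp
    rw [this]
    nlinarith [norm_nonneg (m + conj m * v 0)]
  have x2 : ‖XX m h 2‖ ≤ 4 * ρ := by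
    have := norm_XX_le hm h 2 le_rfl
    norm_num at this
    linarith
  set d : ℕ → ℂ := fun k => h k - g k with hd
  -- the general difference inequality
  have step : ∀ K : ℕ, 1 ≤ K → ((K : ℝ) + 2) * ‖d (K + 2)‖ ≤ ((K : ℝ) - 1) * ‖d (K + 1)‖
      + σ * ∑ j ∈ Finset.range K, ‖XX m h j‖ + ‖XX m d K‖ := by
    intro K hK
    have hK' : (1 : ℝ) ≤ K := by exact_mod_cast hK
    have e1 := H.succ K
    have e2 := rec_cst_succ G K
    have e3 : ((K : ℂ) + 2) * d (K + 2) = ((K : ℂ) - 1) * m * d (K + 1)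
        - ∑ j ∈ Finset.range K, v (K - j) * XX m h j - v 0 * XX m d K := by
      rw [hd, ← XX_sub]
      simp only
      linear_combination e1 - e2
    have h2 : ‖((K : ℂ) + 2) * d (K + 2)‖ = ((K : ℝ) + 2) * ‖d (K + 2)‖ := by
      rw [norm_mul, show ((K : ℂ) + 2) = (((K : ℝ) + 2 : ℝ) : ℂ) by push_cast; ring,
        Complex.norm_real, Real.norm_of_nonneg (by positivity)]
    rw [← h2, e3]
    have q1 : ‖((K : ℂ) - 1) * m * d (K + 1)‖ ≤ ((K : ℝ) - 1) * ‖d (K + 1)‖ := by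
      rw [norm_mul, norm_mul, show ((K : ℂ) - 1) = (((K : ℝ) - 1 : ℝ) : ℂ) by push_cast; ring,
        Complex.norm_real, Real.norm_of_nonneg (by linarith)]
      have h0 : 0 ≤ ((K : ℝ) - 1) * ‖d (K + 1)‖ := mul_nonneg (by linarith) (norm_nonneg _)
      nlinarith
    have q2 : ‖∑ j ∈ Finset.range K, v (K - j) * XX m h j‖
        ≤ σ * ∑ j ∈ Finset.range K, ‖XX m h j‖ := by
      rw [Finset.mul_sum]
      refine (norm_sum_le _ _).trans (Finset.sum_le_sum fun j hj => ?_)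
      rw [norm_mul]
      obtain ⟨l, hl⟩ : ∃ l, K - j = l + 1 :=
        ⟨K - j - 1, by have := Finset.mem_range.mp hj; omega⟩
      rw [hl]
      exact mul_le_mul_of_nonneg_right (hv l) (norm_nonneg _)
    have q3 : ‖v 0 * XX m d K‖ ≤ ‖XX m d K‖ := by
      rw [norm_mul]
      nlinarith [norm_nonneg (XX m d K)]
    have r1 := norm_sub_le (((K : ℂ) - 1) * m * d (K + 1)
      - ∑ j ∈ Finset.range K, v (K - j) * XX m h j) (v 0 * XX m d K)
    have r2 := norm_sub_le (((K : ℂ) - 1) * m * d (K + 1))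
      (∑ j ∈ Finset.range K, v (K - j) * XX m h j)
    linarith
  have d3 : ‖d 3‖ ≤ 2 / 3 * (ρ * σ) := by
    have e : d 3 = - (2 / 3 * ((ρ : ℝ) : ℂ) * v 1) := by
      simp only [hd]
      rw [H.h3, G.h3, cst_zero, cst_succ]; ring
    rw [e, norm_neg, norm_mul, norm_mul, norm_rho hm]
    have : ‖(2 / 3 : ℂ)‖ = 2 / 3 := by norm_num
    rw [this]
    have := hv 0
    have h9 : ρ * ‖v (0 + 1)‖ ≤ ρ * σ := mul_le_mul_of_nonneg_left this hρ
    simp only [zero_add] at h9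
    nlinarith
  have d4 : ‖d 4‖ ≤ 13 / 6 * (ρ * σ) := by
    have s := step 2 (by norm_num)
    simp only [Finset.sum_range_succ, Finset.sum_range_zero] at s
    have y := norm_XX_le hm d 2 le_rfl
    norm_num at s y
    have t1 : σ * (‖XX m h 0‖ + ‖XX m h 1‖) ≤ σ * (6 * ρ) :=
      mul_le_mul_of_nonneg_left (by linarith) hσ
    nlinarith
  have d5 : ‖d 5‖ ≤ 17 / 3 * (ρ * σ) := by
    have s := step 3 (by norm_num)
    simp only [Finset.sum_range_succ, Finset.sum_range_zero] at s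
    have y := norm_XX_le hm d 3 (by norm_num)
    norm_num at s y
    have t1 : σ * (‖XX m h 0‖ + ‖XX m h 1‖ + ‖XX m h 2‖) ≤ σ * (10 * ρ) :=
      mul_le_mul_of_nonneg_left (by linarith) hσ
    nlinarith
  refine ⟨d3, d4, ?_⟩
  have key : ∀ k, ‖d (k + 4)‖ ≤ aC (k + 4) * (ρ * σ) ∧ ‖d (k + 5)‖ ≤ aC (k + 5) * (ρ * σ) := by
    intro k
    induction k with
    | zero =>
      constructor
      · simp only [zero_add, aC]; nlinarith
      · have : aC 5 = 17 / 3 := by norm_num [aC]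
        simp only [zero_add, this]; exact d5
    | succ k ih =>
      obtain ⟨i1, i2⟩ := ih
      have e0 : k + 1 + 4 = k + 5 := by ring
      rw [e0]
      refine ⟨i2, ?_⟩
      have e1 : k + 1 + 5 = k + 6 := by ring
      rw [e1]
      have s := step (k + 4) (by omega)
      have y := norm_XX_le hm d (k + 4) (by omega)
      have b := (H.bound hm hv0 hv k).2
      rw [← hρd] at b
      have a1 := aC_succ (k + 5) (by omega)
      have a2 := aC_succ (k + 4) (by omega)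
      push_cast at s y b a1 a2
      have f1 : k + 4 + 2 = k + 6 := by ring
      have f2 : k + 4 + 1 = k + 5 := by ring
      have f3 : k + 5 + 1 = k + 6 := by ring
      rw [f1, f2] at s
      rw [f2] at y a2
      rw [f3] at a1
      have hk0 : (0 : ℝ) ≤ k := Nat.cast_nonneg k
      have hpos : (0 : ℝ) < (k : ℝ) + 4 + 2 := by positivity
      refine le_of_mul_le_mul_left ?_ hpos
      have t1 : ((k : ℝ) + 4 - 1) * ‖d (k + 5)‖ ≤ ((k : ℝ) + 4 - 1) * (aC (k + 5) * (ρ * σ)) :=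
        mul_le_mul_of_nonneg_left i2 (by linarith)
      have t2 : ((k : ℝ) + 4 + 1) * ‖d (k + 5)‖ ≤ ((k : ℝ) + 4 + 1) * (aC (k + 5) * (ρ * σ)) :=
        mul_le_mul_of_nonneg_left i2 (by linarith)
      have t3 : ((k : ℝ) + 4 - 2) * ‖d (k + 4)‖ ≤ ((k : ℝ) + 4 - 2) * (aC (k + 4) * (ρ * σ)) :=
        mul_le_mul_of_nonneg_left i1 (by linarith)
      have t4 : σ * ∑ j ∈ Finset.range (k + 4), ‖XX m h j‖
          ≤ σ * (ρ * (2 * ((k : ℝ) + 4) * aC (k + 4))) := mul_le_mul_of_nonneg_left b hσ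
      have t5 : ((k : ℝ) + 4 + 2) * (aC (k + 6) * (ρ * σ))
          = (ρ * σ) * ((3 * ((k : ℝ) + 5) - 2) * aC (k + 5)) := by
        rw [← a1]; ring
      have t6 : (ρ * σ) * (((k : ℝ) + 4 + 1) * aC (k + 5))
          = (ρ * σ) * ((3 * ((k : ℝ) + 4) - 2) * aC (k + 4)) := by rw [a2]
      rw [t5]
      nlinarith
  exact fun k => (key k).2

end Pool.Agent.MP_8daf13
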