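import Pool.Agent.Work.MP_8daf13_an.Defs

open Complex Metric Filter Topology
open scoped ComplexConjugate

namespace Pool.Agent.MP_8daf13

/-- majorant of the coefficients -/
noncomputable def aC : ℕ → ℝ
  | 0 => 4 / 3
  | 1 => 4 / 3
  | 2 => 4 / 3
  | 3 => 4 / 3
  | 4 => 17 / 6
  | (k + 5) => (3 * ((k : ℝ) + 4) - 2) / ((k : ℝ) + 5) * aC (k + 4)

lemma aC_succ (k : ℕ) (hk : 4 ≤ k) : ((k : ℝ) + 1) * aC (k + 1) = (3 * (k : ℝ) - 2) * aC k := by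
  obtain ⟨j, rfl⟩ : ∃ j, k = j + 4 := ⟨k - 4, by omega⟩
  have h : aC (j + 4 + 1) = (3 * ((j : ℝ) + 4) - 2) / ((j : ℝ) + 5) * aC (j + 4) := rfl
  rw [h]
  have : ((j : ℝ) + 5) ≠ 0 := by positivity
  push_cast
  field_simp
  ring

lemma aC_pos (k : ℕ) : 0 < aC (k + 4) := by
  induction k with
  | zero => norm_num [aC]
  | succ k ih =>
    have h := aC_succ (k + 4) (by omega)
    have e : k + 1 + 4 = k + 4 + 1 := by ring
    rw [e]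
    push_cast at h
    have h1 : 0 < (k : ℝ) + 4 + 1 := by positivity
    have h2 : 0 < (3 * ((k : ℝ) + 4) - 2) * aC (k + 4) := by
      apply mul_pos _ ih
      have : (0 : ℝ) ≤ k := Nat.cast_nonneg k
      linarith
    rw [← h] at h2
    exact (pos_iff_pos_of_mul_pos h2).mp h1

lemma aC_le (k : ℕ) : aC (k + 5) ≤ 17 / 3 * 3 ^ k := by
  induction k with
  | zero => norm_num [aC]
  | succ k ih =>
    have h := aC_succ (k + 5) (by omega)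
    have hp := aC_pos (k + 1)
    have e : k + 1 + 4 = k + 5 := by ring
    rw [e] at hp
    have e : k + 1 + 5 = k + 5 + 1 := by ring
    rw [e]
    push_cast at h
    have h1 : 0 < (k : ℝ) + 5 + 1 := by positivity
    have h3 : aC (k + 5 + 1) ≤ 3 * aC (k + 5) := by
      have : ((k : ℝ) + 5 + 1) * aC (k + 5 + 1) ≤ ((k : ℝ) + 5 + 1) * (3 * aC (k + 5)) := by
        rw [h]; nlinarith
      exact le_of_mul_le_mul_left this h1
    calc aC (k + 5 + 1) ≤ 3 * aC (k + 5) := h3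
      _ ≤ 3 * (17 / 3 * 3 ^ k) := by linarith
      _ = 17 / 3 * 3 ^ (k + 1) := by ring

/-- abbreviation -/
noncomputable def XX (m : ℂ) (h : ℕ → ℂ) (j : ℕ) : ℂ :=
  conj m * ((j : ℂ) + 1) * h (j + 1) - ((j : ℂ) - 2) * h j

lemma Rec.succ {m : ℂ} {v h : ℕ → ℂ} (H : Rec m v h) (K : ℕ) :
    ((K : ℂ) + 2) * h (K + 2) = ((K : ℂ) - 1) * m * h (K + 1)
      - ∑ j ∈ Finset.range K, v (K - j) * XX m h j - v 0 * XX m h K := by
  have h1 := H.2 (K + 1)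
  rw [Finset.sum_range_succ] at h1
  simp only [Nat.add_sub_cancel, Nat.sub_self] at h1
  push_cast at h1
  have e : ((K : ℂ) + 2) = (K : ℂ) + 1 + 1 := by ring
  rw [e, show K + 2 = K + 1 + 1 from rfl, h1]
  unfold XX
  ring

lemma Rec.h1 {m : ℂ} {v h : ℕ → ℂ} (H : Rec m v h) : h 1 = -2 * m := by
  have h1 := H.2 0
  simp [H.1] at h1
  rw [h1]; ring

lemma conj_mul_norm (m : ℂ) : conj m * m = ((‖m‖ ^ 2 : ℝ) : ℂ) := by
  rw [mul_comm, Complex.mul_conj, Complex.normSq_eq_norm_sq]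

lemma Rec.X0 {m : ℂ} {v h : ℕ → ℂ} (H : Rec m v h) :
    XX m h 0 = 2 * ((1 - ‖m‖ ^ 2 : ℝ) : ℂ) := by
  unfold XX
  have := conj_mul_norm m
  simp only [Nat.cast_zero, zero_add, H.h1, H.1]
  push_cast at this ⊢
  linear_combination -2 * this

lemma Rec.h2 {m : ℂ} {v h : ℕ → ℂ} (H : Rec m v h) :
    h 2 = m ^ 2 - ((1 - ‖m‖ ^ 2 : ℝ) : ℂ) * v 0 := by
  have h1 := H.succ 0
  simp only [Nat.cast_zero, Finset.range_zero, Finset.sum_empty, H.X0, zero_add, H.h1] at h1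
  have : (2 : ℂ) * h 2 = 2 * (m ^ 2 - ((1 - ‖m‖ ^ 2 : ℝ) : ℂ) * v 0) := by
    rw [h1]; ring
  exact mul_left_cancel₀ two_ne_zero this

lemma Rec.X1 {m : ℂ} {v h : ℕ → ℂ} (H : Rec m v h) :
    XX m h 1 = -2 * ((1 - ‖m‖ ^ 2 : ℝ) : ℂ) * (m + conj m * v 0) := by
  unfold XX
  have := conj_mul_norm m
  simp only [Nat.cast_one, H.h1, show 1 + 1 = 2 from rfl, H.h2]
  push_cast at this ⊢
  linear_combination 2 * m * this

lemma Rec.h3 {m : ℂ} {v h : ℕ → ℂ} (H : Rec m v h) :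
    h 3 = 2 / 3 * ((1 - ‖m‖ ^ 2 : ℝ) : ℂ) * (m * v 0 + conj m * v 0 ^ 2 - v 1) := by
  have h1 := H.succ 1
  simp only [Nat.cast_one, Finset.sum_range_one, H.X0, H.X1, Nat.sub_zero] at h1
  have : (3 : ℂ) * h 3 = 3 * (2 / 3 * ((1 - ‖m‖ ^ 2 : ℝ) : ℂ) * (m * v 0 + conj m * v 0 ^ 2 - v 1)) := by
    rw [show (3 : ℂ) * h 3 = (1 + 2) * h (1 + 2) by norm_num, h1]; ring
  exact mul_left_cancel₀ three_ne_zero this

lemma norm_XX_le {m : ℂ} (hm : ‖m‖ ≤ 1) (h : ℕ → ℂ) (j : ℕ) (hj : 2 ≤ j) :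
    ‖XX m h j‖ ≤ ((j : ℝ) + 1) * ‖h (j + 1)‖ + ((j : ℝ) - 2) * ‖h j‖ := by
  unfold XX
  have hj' : (2 : ℝ) ≤ j := by exact_mod_cast hj
  refine (norm_sub_le _ _).trans (add_le_add ?_ ?_)
  · rw [norm_mul, norm_mul, Complex.norm_conj]
    have : ‖((j : ℂ) + 1)‖ = (j : ℝ) + 1 := by
      rw [show ((j : ℂ) + 1) = (((j : ℝ) + 1 : ℝ) : ℂ) by push_cast; ring, Complex.norm_real,
        Real.norm_of_nonneg (by positivity)]
    rw [this]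
    have h0 : 0 ≤ ((j : ℝ) + 1) * ‖h (j + 1)‖ := by positivity
    nlinarith
  · rw [norm_mul]
    have : ‖((j : ℂ) - 2)‖ = (j : ℝ) - 2 := by
      rw [show ((j : ℂ) - 2) = (((j : ℝ) - 2 : ℝ) : ℂ) by push_cast; ring, Complex.norm_real,
        Real.norm_of_nonneg (by linarith)]
    rw [this]

/-- norms of the first terms and the recursion inequality -/
lemma Rec.norm_succ {m : ℂ} (hm : ‖m‖ ≤ 1) {v h : ℕ → ℂ} (H : Rec m v h) (hv : ∀ l, ‖v l‖ ≤ 1)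
    (K : ℕ) (hK : 1 ≤ K) :
    ((K : ℝ) + 2) * ‖h (K + 2)‖ ≤ ((K : ℝ) - 1) * ‖h (K + 1)‖
      + ∑ j ∈ Finset.range (K + 1), ‖XX m h j‖ := by
  have hK' : (1 : ℝ) ≤ K := by exact_mod_cast hK
  have h1 := H.succ K
  have h2 : ‖((K : ℂ) + 2) * h (K + 2)‖ = ((K : ℝ) + 2) * ‖h (K + 2)‖ := by
    rw [norm_mul, show ((K : ℂ) + 2) = (((K : ℝ) + 2 : ℝ) : ℂ) by push_cast; ring,
      Complex.norm_real, Real.norm_of_nonneg (by positivity)]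
  rw [← h2, h1, Finset.sum_range_succ]
  have e1 : ‖((K : ℂ) - 1) * m * h (K + 1)‖ ≤ ((K : ℝ) - 1) * ‖h (K + 1)‖ := by
    rw [norm_mul, norm_mul, show ((K : ℂ) - 1) = (((K : ℝ) - 1 : ℝ) : ℂ) by push_cast; ring,
      Complex.norm_real, Real.norm_of_nonneg (by linarith)]
    have h0 : 0 ≤ ((K : ℝ) - 1) * ‖h (K + 1)‖ := mul_nonneg (by linarith) (norm_nonneg _)
    nlinarith
  have e2 : ‖∑ j ∈ Finset.range K, v (K - j) * XX m h j‖ ≤ ∑ j ∈ Finset.range K, ‖XX m h j‖ := by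
    refine (norm_sum_le _ _).trans (Finset.sum_le_sum fun j _ => ?_)
    rw [norm_mul]
    have := hv (K - j)
    nlinarith [norm_nonneg (XX m h j)]
  have e3 : ‖v 0 * XX m h K‖ ≤ ‖XX m h K‖ := by
    rw [norm_mul]
    have := hv 0
    nlinarith [norm_nonneg (XX m h K)]
  have n1 := norm_sub_le (((K : ℂ) - 1) * m * h (K + 1) - ∑ j ∈ Finset.range K, v (K - j) * XX m h j)
    (v 0 * XX m h K)
  have n2 := norm_sub_le (((K : ℂ) - 1) * m * h (K + 1))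
    (∑ j ∈ Finset.range K, v (K - j) * XX m h j)
  linarith

lemma norm_rho {m : ℂ} (hm : ‖m‖ ≤ 1) : ‖((1 - ‖m‖ ^ 2 : ℝ) : ℂ)‖ = 1 - ‖m‖ ^ 2 := by
  rw [Complex.norm_real, Real.norm_of_nonneg]
  nlinarith [norm_nonneg m]

lemma Rec.n3 {m : ℂ} (hm : ‖m‖ ≤ 1) {v h : ℕ → ℂ} (H : Rec m v h) (hv0 : ‖v 0‖ ≤ 1)
    (hv : ∀ l, ‖v (l + 1)‖ ≤ 1 - ‖v 0‖ ^ 2) : ‖h 3‖ ≤ 4 / 3 * (1 - ‖m‖ ^ 2) := by
  rw [H.h3, norm_mul, norm_mul, norm_rho hm]
  have hρ : 0 ≤ 1 - ‖m‖ ^ 2 := by nlinarith [norm_nonneg m]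
  have e : ‖m * v 0 + conj m * v 0 ^ 2 - v 1‖ ≤ 2 := by
    have n1 := norm_sub_le (m * v 0 + conj m * v 0 ^ 2) (v 1)
    have n2 := norm_add_le (m * v 0) (conj m * v 0 ^ 2)
    rw [norm_mul, norm_mul, Complex.norm_conj, norm_pow] at n2
    have n3 := hv 0
    have a := norm_nonneg (v 0)
    have b := norm_nonneg m
    nlinarith
  have : ‖(2 / 3 : ℂ)‖ = 2 / 3 := by norm_num
  rw [this]
  nlinarith [norm_nonneg (m * v 0 + conj m * v 0 ^ 2 - v 1)]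

lemma Rec.bound {m : ℂ} (hm : ‖m‖ ≤ 1) {v h : ℕ → ℂ} (H : Rec m v h) (hv0 : ‖v 0‖ ≤ 1)
    (hv : ∀ l, ‖v (l + 1)‖ ≤ 1 - ‖v 0‖ ^ 2) (k : ℕ) :
    ‖h (k + 4)‖ ≤ (1 - ‖m‖ ^ 2) * aC (k + 4) ∧
    ∑ j ∈ Finset.range (k + 4), ‖XX m h j‖ ≤ (1 - ‖m‖ ^ 2) * (2 * ((k : ℝ) + 4) * aC (k + 4)) := by
  have hρ : 0 ≤ 1 - ‖m‖ ^ 2 := by nlinarith [norm_nonneg m]
  have hv' : ∀ l, ‖v l‖ ≤ 1 := by
    intro l
    rcases l with _ | l
    · exact hv0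
    · have := hv l; nlinarith [norm_nonneg (v 0)]
  have n3 := H.n3 hm hv0 hv
  have x0 : ‖XX m h 0‖ = 2 * (1 - ‖m‖ ^ 2) := by
    rw [H.X0, norm_mul, norm_rho hm]; norm_num
  have x1 : ‖XX m h 1‖ ≤ 4 * (1 - ‖m‖ ^ 2) := by
    rw [H.X1, norm_mul, norm_mul, norm_rho hm]
    have e : ‖m + conj m * v 0‖ ≤ 2 := by
      have n1 := norm_add_le m (conj m * v 0)
      rw [norm_mul, Complex.norm_conj] at n1
      nlinarith [norm_nonneg m, norm_nonneg (v 0)]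
    have : ‖(-2 : ℂ)‖ = 2 := by simp
    rw [this]
    nlinarith [norm_nonneg (m + conj m * v 0)]
  have x2 : ‖XX m h 2‖ ≤ 4 * (1 - ‖m‖ ^ 2) := by
    have := norm_XX_le hm h 2 le_rfl
    norm_num at this
    linarith
  have n4 : ‖h 4‖ ≤ 17 / 6 * (1 - ‖m‖ ^ 2) := by
    have := H.norm_succ hm hv' 2 (by norm_num)
    simp only [Finset.sum_range_succ, Finset.sum_range_zero] at this
    norm_num at this
    linarith
  induction k with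
  | zero =>
    have x3 : ‖XX m h 3‖ ≤ 38 / 3 * (1 - ‖m‖ ^ 2) := by
      have := norm_XX_le hm h 3 (by norm_num)
      norm_num at this
      linarith
    constructor
    · simp only [zero_add, aC]; linarith
    · simp only [zero_add, Finset.sum_range_succ, Finset.sum_range_zero, aC]
      norm_num
      linarith
  | succ k ih =>
    obtain ⟨ih1, ih2⟩ := ih
    have a1 := aC_succ (k + 4) (by omega)
    have ap := aC_pos k
    have ap' := aC_pos (k + 1)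
    have e : k + 1 + 4 = k + 4 + 1 := by ring
    rw [e] at ap' ⊢
    push_cast at a1 ⊢
    have r1 := H.norm_succ hm hv' (k + 3) (by omega)
    push_cast at r1
    have e2 : k + 3 + 2 = k + 4 + 1 := by ring
    have e3 : k + 3 + 1 = k + 4 := by ring
    rw [e2, e3] at r1
    have hk0 : (0 : ℝ) ≤ k := Nat.cast_nonneg k
    have c1 : ‖h (k + 4 + 1)‖ ≤ (1 - ‖m‖ ^ 2) * aC (k + 4 + 1) := by
      have hpos : (0 : ℝ) < (k : ℝ) + 4 + 1 := by positivity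
      refine le_of_mul_le_mul_left ?_ hpos
      have t1 : ((k : ℝ) + 3 - 1) * ‖h (k + 4)‖ ≤ ((k : ℝ) + 3 - 1) * ((1 - ‖m‖ ^ 2) * aC (k + 4)) :=
        mul_le_mul_of_nonneg_left ih1 (by linarith)
      have t2 : ((k : ℝ) + 4 + 1) * ((1 - ‖m‖ ^ 2) * aC (k + 4 + 1))
          = (1 - ‖m‖ ^ 2) * ((3 * ((k : ℝ) + 4) - 2) * aC (k + 4)) := by rw [← a1]; ring
      rw [t2]
      nlinarith
    refine ⟨c1, ?_⟩
    rw [Finset.sum_range_succ]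
    have x4 := norm_XX_le hm h (k + 4) (by omega)
    push_cast at x4
    have t1 : ((k : ℝ) + 4 + 1) * ‖h (k + 4 + 1)‖ ≤ ((k : ℝ) + 4 + 1) * ((1 - ‖m‖ ^ 2) * aC (k + 4 + 1)) :=
      mul_le_mul_of_nonneg_left c1 (by positivity)
    have t2 : ((k : ℝ) + 4 - 2) * ‖h (k + 4)‖ ≤ ((k : ℝ) + 4 - 2) * ((1 - ‖m‖ ^ 2) * aC (k + 4)) :=
      mul_le_mul_of_nonneg_left ih1 (by linarith)
    have t3 : (1 - ‖m‖ ^ 2) * (2 * ((k : ℝ) + 4 + 1) * aC (k + 4 + 1))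
        = (1 - ‖m‖ ^ 2) * ((3 * ((k : ℝ) + 4) - 2) * aC (k + 4))
          + ((k : ℝ) + 4 + 1) * ((1 - ‖m‖ ^ 2) * aC (k + 4 + 1)) := by
      rw [← a1]; ring
    have e5 : ((k : ℝ) + 1 + 4) = (k : ℝ) + 4 + 1 := by ring
    rw [e5, t3]
    nlinarith

end Pool.Agent.MP_8daf13
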