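import Mathlib

/-! Taylor coefficients at the origin and elementary rules. -/

open Complex Metric Filter Topology
open scoped ComplexConjugate

namespace Pool.Agent.MP_8daf13

/-- Taylor coefficient of index n at the origin. -/
noncomputable def tc (f : ℂ → ℂ) (n : ℕ) : ℂ := iteratedDeriv n f 0 / (n.factorial : ℂ)

lemma tc_congr {f g : ℂ → ℂ} (h : f =ᶠ[𝓝 0] g) (n : ℕ) : tc f n = tc g n := by
  unfold tc
  rw [(h.iteratedDeriv n).self_of_nhds]

lemma tc_zero (f : ℂ → ℂ) : tc f 0 = f 0 := by simp [tc]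

lemma tc_one (f : ℂ → ℂ) : tc f 1 = deriv f 0 := by simp [tc]

lemma fac_ne (n : ℕ) : (n.factorial : ℂ) ≠ 0 := by exact_mod_cast n.factorial_ne_zero

lemma tc_mul {f g : ℂ → ℂ} (hf : AnalyticAt ℂ f 0) (hg : AnalyticAt ℂ g 0) (n : ℕ) :
    tc (fun z => f z * g z) n = ∑ i ∈ Finset.range (n + 1), tc f i * tc g (n - i) := by
  unfold tc
  have h := iteratedDeriv_mul (n := n) (x := (0 : ℂ)) (f := f) (g := g)
    (hf.contDiffAt) (hg.contDiffAt)
  have h' : iteratedDeriv n (fun z => f z * g z) 0 = iteratedDeriv n (f * g) 0 := rfl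
  rw [h', h, Finset.sum_div]
  refine Finset.sum_congr rfl fun i hi => ?_
  have hi' : i ≤ n := Nat.lt_succ_iff.mp (Finset.mem_range.mp hi)
  have hc : ((n.choose i : ℕ) : ℂ) * (i.factorial : ℂ) * ((n - i).factorial : ℂ) = (n.factorial : ℂ) := by
    exact_mod_cast Nat.choose_mul_factorial_mul_factorial hi'
  rw [← hc]
  have h1 := fac_ne i
  have h2 := fac_ne (n - i)
  have h3 : ((n.choose i : ℕ) : ℂ) ≠ 0 := by exact_mod_cast (Nat.choose_pos hi').ne'
  field_simp

lemma tc_add {f g : ℂ → ℂ} (hf : AnalyticAt ℂ f 0) (hg : AnalyticAt ℂ g 0) (n : ℕ) :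
    tc (fun z => f z + g z) n = tc f n + tc g n := by
  unfold tc
  rw [iteratedDeriv_fun_add hf.contDiffAt hg.contDiffAt]
  ring

lemma tc_sub {f g : ℂ → ℂ} (hf : AnalyticAt ℂ f 0) (hg : AnalyticAt ℂ g 0) (n : ℕ) :
    tc (fun z => f z - g z) n = tc f n - tc g n := by
  unfold tc
  rw [iteratedDeriv_fun_sub hf.contDiffAt hg.contDiffAt]
  ring

lemma tc_const (c : ℂ) (n : ℕ) : tc (fun _ => c) n = if n = 0 then c else 0 := by
  unfold tc
  rw [iteratedDeriv_const]
  split_ifs with h <;> simp [h]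

lemma tc_const_mul (c : ℂ) (f : ℂ → ℂ) (n : ℕ) :
    tc (fun z => c * f z) n = c * tc f n := by
  unfold tc
  rw [iteratedDeriv_const_mul_field]
  ring

lemma tc_deriv (f : ℂ → ℂ) (n : ℕ) : tc (deriv f) n = (n + 1) * tc f (n + 1) := by
  unfold tc
  rw [iteratedDeriv_succ', Nat.factorial_succ]
  have := fac_ne n
  have h2 : ((n : ℂ) + 1) ≠ 0 := by exact_mod_cast Nat.succ_ne_zero n
  push_cast
  field_simp

lemma tc_id (n : ℕ) : tc (fun z => z) n = if n = 1 then 1 else 0 := by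
  rcases n with _ | _ | n
  · simp [tc_zero]
  · simp [tc_one]
  · unfold tc
    rw [iteratedDeriv_succ']
    have : deriv (fun z : ℂ => z) = fun _ => (1 : ℂ) := by ext z; simp
    rw [this, iteratedDeriv_const]
    simp

lemma tc_id_mul_zero {f : ℂ → ℂ} : tc (fun z => z * f z) 0 = 0 := by simp [tc_zero]

lemma tc_id_mul {f : ℂ → ℂ} (hf : AnalyticAt ℂ f 0) (n : ℕ) :
    tc (fun z => z * f z) (n + 1) = tc f n := by
  rw [tc_mul (f := fun z => z) (g := f) analyticAt_id hf (n + 1)]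
  rw [Finset.sum_eq_single 1]
  · rw [tc_id]; simp
  · intro i _ hi
    rw [tc_id]; simp [hi]
  · intro h
    exact absurd (Finset.mem_range.mpr (by omega)) h

lemma analyticAt_of_ball {f : ℂ → ℂ} {r : ℝ} (hr : 0 < r) (hf : DifferentiableOn ℂ f (ball 0 r)) :
    AnalyticAt ℂ f 0 :=
  hf.analyticAt (isOpen_ball.mem_nhds (mem_ball_self hr))

lemma differentiableOn_dslope_ball {f : ℂ → ℂ} {r : ℝ} (hr : 0 < r)
    (hf : DifferentiableOn ℂ f (ball 0 r)) : DifferentiableOn ℂ (dslope f 0) (ball 0 r) :=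
  (Complex.differentiableOn_dslope (isOpen_ball.mem_nhds (mem_ball_self hr))).mpr hf

lemma eq_dslope (f : ℂ → ℂ) (z : ℂ) : f z = f 0 + z * dslope f 0 z := by
  have := sub_smul_dslope f 0 z
  simp only [sub_zero, smul_eq_mul] at this
  rw [this]; ring

lemma tc_dslope {f : ℂ → ℂ} {r : ℝ} (hr : 0 < r) (hf : DifferentiableOn ℂ f (ball 0 r)) (n : ℕ) :
    tc (dslope f 0) n = tc f (n + 1) := by
  have hd := analyticAt_of_ball hr (differentiableOn_dslope_ball hr hf)
  have hd' : AnalyticAt ℂ (fun z => z * dslope f 0 z) 0 := analyticAt_id.mul hd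
  have h2 : tc f (n + 1) = tc (fun z => f 0 + z * dslope f 0 z) (n + 1) := by
    refine tc_congr (Filter.Eventually.of_forall fun z => ?_) _
    exact eq_dslope f z
  rw [h2, tc_add (f := fun _ => f 0) analyticAt_const hd', tc_const, tc_id_mul hd]
  simp

end Pool.Agent.MP_8daf13
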