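import Pool.Agent.Work.MP_8daf13_an.Small
import Pool.Agent.Work.MP_8daf13_an.Bd.B02

/-! The large index theorem of MP_8daf13_an. -/

open Complex Metric Filter Topology
open scoped ComplexConjugate

namespace Pool.Agent.MP_8daf13

/-- the coefficients of exp F satisfy the recursion -/
lemma rec_exp {m : ℂ} (hm : ‖m‖ ≤ 1) {v F : ℂ → ℂ} (hv : Schur v) (hF : IsLog m v F) :
    Rec m (tc v) (tc (fun z => exp (F z))) := by
  have hb : ball (0 : ℂ) 1 ∈ 𝓝 (0 : ℂ) := isOpen_ball.mem_nhds (mem_ball_self one_pos)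
  refine L11.rec_of_ode (hv.1.analyticAt hb) ((LCore.IsLog.diff_exp hF).analyticAt hb) ?_ ?_
  · simp [hF.1]
  · filter_upwards [hb] with z hz
    rw [((hF.2 z hz).cexp).deriv]
    have := L1.Dn_ne hm hv hz
    field_simp

lemma rec_exp_const {m : ℂ} (hm : ‖m‖ ≤ 1) {ζ : ℂ} (hζ : ‖ζ‖ ≤ 1) {K : ℂ → ℂ}
    (hK : IsLog m (fun _ => ζ) K) (k : ℕ) : tc (fun z => exp (K z)) k = hcoef m ζ k := by
  have h1 := rec_exp hm (LCore.schur_const hζ) hK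
  rw [tc_const_eq] at h1
  exact h1.unique (rec_hcoef _ _) k

lemma Lam_const_ne {p : ℝ} (hp : 0 < p) (hp1 : p < 1) (n : ℕ) :
    ((p ^ (n + 1) * (1 / p - p) : ℝ) : ℂ) ≠ 0 := by
  have h1 : 0 < 1 / p - p := by
    have : 1 < 1 / p := by rw [lt_div_iff₀ hp]; linarith
    linarith
  have : 0 < p ^ (n + 1) * (1 / p - p) := by positivity
  exact_mod_cast this.ne'

theorem pure_large {p : ℝ} (hp : 0 < p) (hp1 : p < 1) : ∃ n₀ : ℕ, ∀ n, n₀ ≤ n →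
    (∀ m : ℂ, ‖m‖ ≤ 1 → ∀ v : ℂ → ℂ, Schur v → ∀ h : ℕ → ℂ, Rec m (tc v) h →
      ∃ ζ : ℂ, ‖ζ‖ ≤ 1 ∧ (‖ζ‖ = 1 → tc v = cst ζ) ∧
        ∑ k ∈ Finset.range (n + 1), (sC p (n - k) : ℂ) * h k
          = ∑ k ∈ Finset.range (n + 1), (sC p (n - k) : ℂ) * hcoef m ζ k) ∧
    (∀ m : ℂ, ‖m‖ < 1 → Set.InjOn
      (fun ζ => ∑ k ∈ Finset.range (n + 1), (sC p (n - k) : ℂ) * hcoef m ζ k)
      (closedBall 0 1)) := by
  set r : ℝ := (p + 1) / 2 with hr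
  have hpr : p < r := by rw [hr]; linarith
  have hr1 : r < 1 := by rw [hr]; linarith
  have hr0 : 0 < r := hp.trans hpr
  obtain ⟨ε, hε, hcore⟩ := LCore.core hp hpr hr1
  obtain ⟨C, hC, hLam⟩ := L10.Lam_bound hp hpr hr1
  obtain ⟨CH, hCH, hCHm⟩ := L9.H_estimates hr0 hr1
  obtain ⟨c, hc, hlow⟩ := LInj.H_lower hp hp1
  have hlim : Tendsto (fun n : ℕ => C * (p / r) ^ n) atTop (𝓝 0) := by
    have h1 : Tendsto (fun n : ℕ => (p / r) ^ n) atTop (𝓝 0) :=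
      tendsto_pow_atTop_nhds_zero_of_lt_one (by positivity) ((div_lt_one hr0).mpr hpr)
    simpa using h1.const_mul C
  have hpos : 0 < min ε (c / (2 * CH)) := lt_min hε (by positivity)
  obtain ⟨n₀, hn₀⟩ := Filter.eventually_atTop.mp (hlim.eventually (gt_mem_nhds hpos))
  refine ⟨n₀, fun n hn => ?_⟩
  have hn1 : C * (p / r) ^ n ≤ ε := ((hn₀ n hn).trans_le (min_le_left _ _)).le
  have hn2 : C * (p / r) ^ n ≤ c / (2 * CH) := ((hn₀ n hn).trans_le (min_le_right _ _)).le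
  have hpn : ‖(p : ℂ)‖ ≤ r := by
    rw [Complex.norm_real, Real.norm_of_nonneg hp.le]; exact hpr.le
  have hLne := Lam_const_ne hp hp1 n
  refine ⟨fun m hm v hv h H => ?_, fun m hm ζ hζ ξ hξ he => ?_⟩
  · obtain ⟨F, hF⟩ := L1.exists_log hm hv
    obtain ⟨ζ, hζ, hu, K, hK, heq⟩ := hcore m hm (fun F => F p - Lam n p F)
      (fun F K hFd hKd M hM => by
        have hM0 : 0 ≤ M := (norm_nonneg _).trans (hM 0 (by simp [hr0.le]))
        refine (hLam n F K hFd hKd M hM).trans ?_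
        exact mul_le_mul_of_nonneg_right hn1 hM0) v F hv hF
    refine ⟨ζ, hζ, fun h1 => ?_, ?_⟩
    · ext k
      rw [← tc_const_eq]
      apply tc_congr
      filter_upwards [closedBall_mem_nhds (0 : ℂ) hr0] with z hz
      exact hu h1 z hz
    · have h1 : Lam n p (fun z => exp (F z)) = Lam n p (fun z => exp (K z)) := by
        linear_combination heq
      rw [L11.Lam_eq_sum hp hp1, L11.Lam_eq_sum hp hp1] at h1
      have h2 := mul_left_cancel₀ hLne h1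
      have h3 := rec_exp hm hv hF
      calc ∑ k ∈ Finset.range (n + 1), (sC p (n - k) : ℂ) * h k
          = ∑ k ∈ Finset.range (n + 1), (sC p (n - k) : ℂ) * tc (fun z => exp (F z)) k :=
            Finset.sum_congr rfl fun k _ => by rw [H.unique h3 k]
        _ = _ := h2
        _ = _ := Finset.sum_congr rfl fun k _ => by rw [rec_exp_const hm hζ hK k]
  · rw [mem_closedBall_zero_iff] at hζ hξ
    simp only at he
    obtain ⟨F, hF⟩ := L1.exists_log hm.le (LCore.schur_const hζ)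
    obtain ⟨K, hK⟩ := L1.exists_log hm.le (LCore.schur_const hξ)
    have h1 : Lam n p (fun z => exp (F z)) = Lam n p (fun z => exp (K z)) := by
      rw [L11.Lam_eq_sum hp hp1, L11.Lam_eq_sum hp hp1]
      congr 1
      calc _ = ∑ k ∈ Finset.range (n + 1), (sC p (n - k) : ℂ) * hcoef m ζ k :=
            Finset.sum_congr rfl fun k _ => by rw [rec_exp_const hm.le hζ hF k]
        _ = _ := he
        _ = _ := Finset.sum_congr rfl fun k _ => by rw [rec_exp_const hm.le hξ hK k]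
    have hT1 := (hCHm m hm.le).1 _ _ F K (LCore.schur_const hζ) (LCore.schur_const hξ) hF hK
      ‖ζ - ξ‖ (fun _ _ => le_rfl)
    have h2 := hLam n _ _ (LCore.IsLog.diff_exp hF) (LCore.IsLog.diff_exp hK)
      (CH * (1 - ‖m‖ ^ 2) * ‖ζ - ξ‖) (fun z hz => hT1 z (by simpa using hz))
    rw [h1] at h2
    have e : exp (F p) - Lam n p (fun z => exp (K z)) - (exp (K p) - Lam n p (fun z => exp (K z)))
        = exp (F p) - exp (K p) := by ring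
    rw [e] at h2
    have h3 := hlow m hm.le ζ ξ hζ hξ F K hF hK
    have hρ : 0 < 1 - ‖m‖ ^ 2 := by nlinarith [norm_nonneg m]
    have h4 : C * (p / r) ^ n * (CH * (1 - ‖m‖ ^ 2) * ‖ζ - ξ‖)
        ≤ c / (2 * CH) * (CH * (1 - ‖m‖ ^ 2) * ‖ζ - ξ‖) :=
      mul_le_mul_of_nonneg_right hn2 (by positivity)
    have h5 : c / (2 * CH) * (CH * (1 - ‖m‖ ^ 2) * ‖ζ - ξ‖)
        = 1 / 2 * (c * (1 - ‖m‖ ^ 2) * ‖ζ - ξ‖) := by
      field_simp
    have h6 : c * (1 - ‖m‖ ^ 2) * ‖ζ - ξ‖ ≤ 0 := by linarith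
    have h7 : 0 < c * (1 - ‖m‖ ^ 2) := by positivity
    have h8 : ‖ζ - ξ‖ ≤ 0 := by
      by_contra hcon
      push Not at hcon
      nlinarith [mul_pos h7 hcon]
    exact sub_eq_zero.mp (norm_le_zero_iff.mp h8)

theorem large_index {p : ℝ} (hp : 0 < p) (hp1 : p < 1) : ∃ n₀ : ℕ, ∀ n, n₀ ≤ n →
    (∀ w₀ : ℂ, w₀ ≠ 0 →
      V n p w₀ = {a | ‖mOf p w₀‖ ≤ 1 ∧ ∃ ζ : ℂ, ‖ζ‖ ≤ 1 ∧ a = An n p (mOf p w₀) ζ}) ∧
    VU n p = {a | ∃ m ζ : ℂ, ‖m‖ ≤ 1 ∧ ‖ζ‖ ≤ 1 ∧ a = An n p m ζ} ∧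
    (∀ m : ℂ, ‖m‖ < 1 → Set.InjOn (An n p m) (closedBall 0 1)) ∧
    (∀ w₀ : ℂ, w₀ ≠ 0 → ‖mOf p w₀‖ < 1 → ∀ f : ℂ → ℂ, SigmaStar p w₀ f → ∀ ζ : ℂ, ‖ζ‖ = 1 →
      tc f n = An n p (mOf p w₀) ζ → ∀ k, 1 ≤ k → tc f k = An k p (mOf p w₀) ζ) := by
  obtain ⟨n₀, hn₀⟩ := pure_large hp hp1
  refine ⟨max n₀ 1, fun n hn => ?_⟩
  obtain ⟨hpure, hinj⟩ := hn₀ n ((le_max_left _ _).trans hn)
  have hn1 : 1 ≤ n := (le_max_right _ _).trans hn
  have hV : ∀ w₀ : ℂ, w₀ ≠ 0 →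
      V n p w₀ = {a | ‖mOf p w₀‖ ≤ 1 ∧ ∃ ζ : ℂ, ‖ζ‖ ≤ 1 ∧ a = An n p (mOf p w₀) ζ} := by
    intro w₀ hw
    ext a
    constructor
    · rintro ⟨f, hf, rfl⟩
      obtain ⟨hm, v, hvd, hvb, h, H, hco⟩ := forward hp hp1 hw hf
      refine ⟨hm, ?_⟩
      obtain ⟨ζ, hζ, -, he⟩ := hpure _ hm v ⟨hvd, hvb⟩ h H
      refine ⟨ζ, hζ, ?_⟩
      rw [hco n hn1, he, neg_w_eq (p := p) hw]
      rfl
    · rintro ⟨hm, ζ, hζ, rfl⟩
      have H : Rec (mOf p w₀) (tc (fun _ => ζ)) (hcoef (mOf p w₀) ζ) := by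
        rw [tc_const_eq]; exact rec_hcoef _ _
      obtain ⟨f, hf, hco⟩ := backward hp hp1 hw hm (v := fun _ => ζ)
        (differentiableOn_const _) (fun _ _ => hζ) H
      refine ⟨f, hf, ?_⟩
      rw [hco n hn1, neg_w_eq (p := p) hw]
      rfl
  have hI : ∀ m : ℂ, ‖m‖ < 1 → Set.InjOn (An n p m) (closedBall 0 1) := by
    intro m hm ζ hζ ξ hξ he
    have hden := den_ne hp hp1 hm.le
    unfold An at he
    rw [div_left_inj' hden] at he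
    exact hinj m hm hζ hξ he
  refine ⟨hV, ?_, hI, ?_⟩
  · ext a
    constructor
    · rintro ⟨w₀, hw, ha⟩
      rw [hV w₀ hw] at ha
      obtain ⟨hm, ζ, h1, h2⟩ := ha
      exact ⟨mOf p w₀, ζ, hm, h1, h2⟩
    · rintro ⟨m, ζ, hm, h1, h2⟩
      obtain ⟨w₀, hw, hmw⟩ := exists_w0 hp hp1 hm
      refine ⟨w₀, hw, ?_⟩
      rw [hV w₀ hw, hmw]
      exact ⟨hm, ζ, h1, h2⟩
  · intro w₀ hw hm f hf ζ hζ he
    obtain ⟨hm', v, hvd, hvb, h, H, hco⟩ := forward hp hp1 hw hf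
    have hden := den_ne hp hp1 hm.le
    obtain ⟨ξ, hξ, hu, hs⟩ := hpure _ hm' v ⟨hvd, hvb⟩ h H
    rw [hco n hn1, neg_w_eq (p := p) hw] at he
    unfold An at he
    rw [div_left_inj' hden, hs] at he
    have hξζ : ξ = ζ := hinj _ hm (by simpa using hξ) (by simp [hζ]) he
    have hv : tc v = cst ζ := by
      rw [← hξζ]; exact hu (by rw [hξζ]; exact hζ)
    rw [hv] at H
    intro k hk
    rw [hco k hk, neg_w_eq (p := p) hw]
    unfold An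
    congr 1
    refine Finset.sum_congr rfl fun j _ => ?_
    rw [H.unique (rec_hcoef _ _) j]
    rfl

end Pool.Agent.MP_8daf13
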