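import Pool.Agent.Work.MP_8daf13_an.Three

/-! All coefficients for p at most 1/6. -/

open Complex Metric Filter Topology
open scoped ComplexConjugate

namespace Pool.Agent.MP_8daf13

/-- The value of the n-th coefficient for the parameters m, ζ:
(sum_{k=0}^n s_(n-k) h_k(m, ζ)) / (p + 1/p - 2m). -/
noncomputable def An (n : ℕ) (p : ℝ) (m ζ : ℂ) : ℂ :=
  (∑ k ∈ Finset.range (n + 1), (sC p (n - k) : ℂ) * hcoef m ζ k) / (p + 1 / p - 2 * m)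

theorem V_eq_small {p : ℝ} (hp : 0 < p) (hp6 : p ≤ 1 / 6) {n : ℕ} (hn : 2 ≤ n) {w₀ : ℂ}
    (hw : w₀ ≠ 0) :
    V n p w₀ = {a | ‖mOf p w₀‖ ≤ 1 ∧ ∃ ζ : ℂ, ‖ζ‖ ≤ 1 ∧ a = An n p (mOf p w₀) ζ} := by
  have hp1 : p < 1 := by linarith
  ext a
  constructor
  · rintro ⟨f, hf, rfl⟩
    obtain ⟨hm, v, hvd, hvb, h, H, hco⟩ := forward hp hp1 hw hf
    refine ⟨hm, ?_⟩
    obtain ⟨h0, h1⟩ := schur_ineq hvd hvb
    obtain ⟨ζ, hζ, he⟩ := pure_main hp hp6 hm hn h0 h1 H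
    refine ⟨ζ, hζ, ?_⟩
    rw [hco n (by omega), he, neg_w_eq (p := p) hw]
    rfl
  · rintro ⟨hm, ζ, hζ, rfl⟩
    have H : Rec (mOf p w₀) (tc (fun _ => ζ)) (hcoef (mOf p w₀) ζ) := by
      rw [tc_const_eq]; exact rec_hcoef _ _
    obtain ⟨f, hf, hco⟩ := backward hp hp1 hw hm (v := fun _ => ζ)
      (differentiableOn_const _) (fun _ _ => hζ) H
    refine ⟨f, hf, ?_⟩
    rw [hco n (by omega), neg_w_eq (p := p) hw]
    rfl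

theorem VU_eq_small {p : ℝ} (hp : 0 < p) (hp6 : p ≤ 1 / 6) {n : ℕ} (hn : 2 ≤ n) :
    VU n p = {a | ∃ m ζ : ℂ, ‖m‖ ≤ 1 ∧ ‖ζ‖ ≤ 1 ∧ a = An n p m ζ} := by
  have hp1 : p < 1 := by linarith
  ext a
  constructor
  · rintro ⟨w₀, hw, ha⟩
    rw [V_eq_small hp hp6 hn hw] at ha
    obtain ⟨hm, ζ, h1, h2⟩ := ha
    exact ⟨mOf p w₀, ζ, hm, h1, h2⟩
  · rintro ⟨m, ζ, hm, h1, h2⟩
    obtain ⟨w₀, hw, hmw⟩ := exists_w0 hp hp1 hm
    refine ⟨w₀, hw, ?_⟩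
    rw [V_eq_small hp hp6 hn hw, hmw]
    exact ⟨hm, ζ, h1, h2⟩

theorem An_inj {p : ℝ} (hp : 0 < p) (hp6 : p ≤ 1 / 6) {n : ℕ} (hn : 2 ≤ n) {m : ℂ}
    (hm : ‖m‖ < 1) : Set.InjOn (An n p m) (closedBall 0 1) := by
  intro ζ hζ ξ hξ he
  have hden := den_ne hp (by linarith) hm.le
  unfold An at he
  rw [div_left_inj' hden] at he
  exact Pn_inj hp hp6 hm hn hζ hξ he

theorem unique_small {p : ℝ} (hp : 0 < p) (hp6 : p ≤ 1 / 6) {n : ℕ} (hn : 2 ≤ n) {w₀ : ℂ}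
    (hw : w₀ ≠ 0) (hm : ‖mOf p w₀‖ < 1) {f : ℂ → ℂ} (hf : SigmaStar p w₀ f) {ζ : ℂ}
    (hζ : ‖ζ‖ = 1) (he : tc f n = An n p (mOf p w₀) ζ) :
    ∀ k, 1 ≤ k → tc f k = An k p (mOf p w₀) ζ := by
  have hp1 : p < 1 := by linarith
  obtain ⟨hm', v, hvd, hvb, h, H, hco⟩ := forward hp hp1 hw hf
  obtain ⟨h0, h1⟩ := schur_ineq hvd hvb
  have hden := den_ne hp hp1 hm.le
  rw [hco n (by omega), neg_w_eq (p := p) hw] at he
  unfold An at he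
  rw [div_left_inj' hden] at he
  have hv0 := pure_unique hp hp6 hm hn h0 h1 H hζ he
  have hv : tc v = cst ζ := by
    rw [← hv0]
    exact tc_of_unimodular hvd hvb (by rw [hv0]; exact hζ)
  rw [hv] at H
  intro k hk
  rw [hco k hk, neg_w_eq (p := p) hw]
  unfold An
  congr 1
  refine Finset.sum_congr rfl fun j _ => ?_
  rw [H.unique (rec_hcoef _ _) j]
  rfl

end Pool.Agent.MP_8daf13
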