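import Pool.Agent.Work.MP_8daf13_an.Bd.B01

/-! The third coefficient, all p. -/

open Complex Metric Filter Topology
open scoped ComplexConjugate

namespace Pool.Agent.MP_8daf13

/-- The value of the third coefficient for the parameters m, ζ, η. -/
noncomputable def A3 (p : ℝ) (m ζ η : ℂ) : ℂ :=
  ((sC p 3 : ℂ) - 2 * m * (sC p 2 : ℂ) + m ^ 2 * (p + 1 / p)
    - (1 - ‖m‖ ^ 2 : ℝ) * ((p + 1 / p - 2 / 3 * m) * ζ - 2 / 3 * conj m * ζ ^ 2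
      + 2 / 3 * (1 - ‖ζ‖ ^ 2 : ℝ) * η)) / (p + 1 / p - 2 * m)

lemma s_gt_two {p : ℝ} (hp : 0 < p) (hp1 : p < 1) : 2 < p + 1 / p := by
  have h : 0 < (1 - p) ^ 2 / p := by
    apply div_pos _ hp
    have : 0 < 1 - p := by linarith
    positivity
  have e : (1 - p) ^ 2 / p = p + 1 / p - 2 := by field_simp; ring
  linarith

lemma norm_s {p : ℝ} (hp : 0 < p) : ‖((p : ℂ) + 1 / p)‖ = p + 1 / p := by
  rw [show ((p : ℂ) + 1 / p) = ((p + 1 / p : ℝ) : ℂ) by push_cast; ring, Complex.norm_real,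
    Real.norm_of_nonneg (by positivity)]

lemma den_ne {p : ℝ} (hp : 0 < p) (hp1 : p < 1) {m : ℂ} (hm : ‖m‖ ≤ 1) :
    (p : ℂ) + 1 / p - 2 * m ≠ 0 := by
  intro h
  have h1 : (p : ℂ) + 1 / p = 2 * m := by linear_combination h
  have h2 := norm_s hp
  rw [h1, norm_mul] at h2
  have h3 := s_gt_two hp hp1
  have : ‖(2 : ℂ)‖ = 2 := by simp
  rw [this] at h2
  linarith

/-- w₀ in terms of m -/
lemma w_eq {p : ℝ} {w₀ : ℂ} : (p : ℂ) + 1 / p - 2 * mOf p w₀ = - (1 / w₀) := by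
  unfold mOf; ring

lemma neg_w_eq {p : ℝ} {w₀ : ℂ} (hw : w₀ ≠ 0) (x : ℂ) :
    - w₀ * x = x / ((p : ℂ) + 1 / p - 2 * mOf p w₀) := by
  rw [w_eq]
  field_simp

/-- every admissible m comes from a w₀ -/
lemma exists_w0 {p : ℝ} (hp : 0 < p) (hp1 : p < 1) {m : ℂ} (hm : ‖m‖ ≤ 1) :
    ∃ w₀ : ℂ, w₀ ≠ 0 ∧ mOf p w₀ = m := by
  have h := den_ne hp hp1 hm
  refine ⟨- 1 / ((p : ℂ) + 1 / p - 2 * m), div_ne_zero (by norm_num) h, ?_⟩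
  unfold mOf
  rw [one_div_div]
  ring

lemma sum3 {p : ℝ} {m : ℂ} {v h : ℕ → ℂ} (H : Rec m v h) :
    ∑ k ∈ Finset.range (3 + 1), (sC p (3 - k) : ℂ) * h k =
    (sC p 3 : ℂ) - 2 * m * (sC p 2 : ℂ) + m ^ 2 * (p + 1 / p)
    - (1 - ‖m‖ ^ 2 : ℝ) * ((p + 1 / p - 2 / 3 * m) * v 0 - 2 / 3 * conj m * (v 0) ^ 2
      + 2 / 3 * v 1) := by
  have s1 : (sC p 1 : ℂ) = p + 1 / p := by
    unfold sC
    simp [Finset.sum_range_succ]
    ring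
  have s0 : (sC p 0 : ℂ) = 1 := by unfold sC; simp
  simp only [Finset.sum_range_succ, Finset.sum_range_zero, zero_add, Nat.sub_self, Nat.sub_zero,
    H.1, H.h1, H.h2, H.h3, show 3 - 1 = 2 from rfl, show 3 - 2 = 1 from rfl, s1, s0]
  ring

/-- the Schur function with two prescribed coefficients -/
lemma exists_schur2 {ζ η : ℂ} (hζ : ‖ζ‖ ≤ 1) (hη : ‖η‖ ≤ 1) :
    ∃ v : ℂ → ℂ, DifferentiableOn ℂ v (ball 0 1) ∧ (∀ z ∈ ball (0 : ℂ) 1, ‖v z‖ ≤ 1) ∧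
      tc v 0 = ζ ∧ tc v 1 = (1 - ‖ζ‖ ^ 2 : ℝ) * η := by
  have hne : ∀ z ∈ ball (0 : ℂ) 1, 1 + conj ζ * (z * η) ≠ 0 := by
    intro z hz h
    rw [mem_ball_zero_iff] at hz
    have h1 : conj ζ * (z * η) = -1 := by linear_combination h
    have h2 : ‖conj ζ * (z * η)‖ < 1 := by
      rw [norm_mul, norm_mul, Complex.norm_conj]
      have : ‖z‖ * ‖η‖ < 1 := by nlinarith [norm_nonneg z, norm_nonneg η]
      nlinarith [norm_nonneg z, norm_nonneg η, norm_nonneg ζ, mul_nonneg (norm_nonneg z) (norm_nonneg η)]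
    rw [h1] at h2
    simp at h2
  refine ⟨fun z => (ζ + z * η) / (1 + conj ζ * (z * η)), ?_, ?_, ?_, ?_⟩
  · apply DifferentiableOn.div
    · fun_prop
    · fun_prop
    · exact hne
  · intro z hz
    rw [norm_div, div_le_one (norm_pos_iff.mpr (hne z hz))]
    apply S4_norm_le hζ
    rw [norm_mul]
    rw [mem_ball_zero_iff] at hz
    nlinarith [norm_nonneg z, norm_nonneg η]
  · simp [tc_zero]
  · rw [tc_one]
    have h1 : HasDerivAt (fun z : ℂ => ζ + z * η) η 0 := by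
      simpa using ((hasDerivAt_id (0 : ℂ)).mul_const η).const_add ζ
    have h2 : HasDerivAt (fun z : ℂ => 1 + conj ζ * (z * η)) (conj ζ * η) 0 := by
      have := (((hasDerivAt_id (0 : ℂ)).mul_const η).const_mul (conj ζ)).const_add 1
      simpa using this
    have h3 := h1.div h2 (by simp)
    have h4 := h3.deriv
    simp only [zero_mul, add_zero, mul_zero, mul_one, one_pow, div_one] at h4
    have h5 : deriv (fun z => (ζ + z * η) / (1 + conj ζ * (z * η))) 0 = η - ζ * (conj ζ * η) := h4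
    rw [h5]
    have := conj_mul_norm ζ
    push_cast at this ⊢
    linear_combination -η * this

/-- the exact region for n = 3 -/
theorem V3_eq {p : ℝ} (hp : 0 < p) (hp1 : p < 1) {w₀ : ℂ} (hw : w₀ ≠ 0) :
    V 3 p w₀ = {a | ‖mOf p w₀‖ ≤ 1 ∧ ∃ ζ η : ℂ, ‖ζ‖ ≤ 1 ∧ ‖η‖ ≤ 1 ∧ a = A3 p (mOf p w₀) ζ η} := by
  ext a
  constructor
  · rintro ⟨f, hf, rfl⟩
    obtain ⟨hm, v, hvd, hvb, h, H, hco⟩ := forward hp hp1 hw hf
    refine ⟨hm, ?_⟩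
    obtain ⟨h0, h1⟩ := schur_ineq hvd hvb
    have h1' := h1 0
    obtain ⟨η, hη, hv1⟩ : ∃ η : ℂ, ‖η‖ ≤ 1 ∧ tc v 1 = (1 - ‖tc v 0‖ ^ 2 : ℝ) * η := by
      by_cases h2 : 1 - ‖tc v 0‖ ^ 2 = 0
      · refine ⟨0, by simp, ?_⟩
        rw [h2] at h1'
        have : tc v (0 + 1) = 0 := norm_le_zero_iff.mp h1'
        simpa using this
      · have hpos : 0 < 1 - ‖tc v 0‖ ^ 2 :=
          lt_of_le_of_ne (le_trans (norm_nonneg _) h1') (Ne.symm h2)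
        refine ⟨tc v 1 / (1 - ‖tc v 0‖ ^ 2 : ℝ), ?_, ?_⟩
        · rw [norm_div, Complex.norm_real, Real.norm_of_nonneg hpos.le, div_le_one hpos]
          simpa using h1'
        · have : ((1 - ‖tc v 0‖ ^ 2 : ℝ) : ℂ) ≠ 0 := by exact_mod_cast h2
          field_simp
    refine ⟨tc v 0, η, h0, hη, ?_⟩
    rw [hco 3 (by norm_num), sum3 H, hv1, neg_w_eq (p := p) hw]
    unfold A3 mOf
    congr 1
    ring
  · rintro ⟨hm, ζ, η, hζ, hη, rfl⟩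
    obtain ⟨v, hvd, hvb, hv0, hv1⟩ := exists_schur2 hζ hη
    obtain ⟨f, P, h1, h2, h3, h4, h5, h6, h7, h8⟩ := exists_f hp hp1 hm hw
      (by unfold mOf; ring) hvd hvb
    obtain ⟨-, g, hrec, hco⟩ := coef_rec hp hp1 hw h1 h2 h3 h7 hvd h8
    refine ⟨f, ⟨h1, h2, h3, P, h4, h5, h6, h7⟩, ?_⟩
    rw [hco 3 (by norm_num), sum3 hrec, hv1, hv0, neg_w_eq (p := p) hw]
    unfold A3
    congr 1
    ring

theorem VU3_eq {p : ℝ} (hp : 0 < p) (hp1 : p < 1) :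
    VU 3 p = {a | ∃ m ζ η : ℂ, ‖m‖ ≤ 1 ∧ ‖ζ‖ ≤ 1 ∧ ‖η‖ ≤ 1 ∧ a = A3 p m ζ η} := by
  ext a
  constructor
  · rintro ⟨w₀, hw, ha⟩
    rw [V3_eq hp hp1 hw] at ha
    obtain ⟨hm, ζ, η, h1, h2, h3⟩ := ha
    exact ⟨mOf p w₀, ζ, η, hm, h1, h2, h3⟩
  · rintro ⟨m, ζ, η, hm, h1, h2, h3⟩
    obtain ⟨w₀, hw, hmw⟩ := exists_w0 hp hp1 hm
    refine ⟨w₀, hw, ?_⟩
    rw [V3_eq hp hp1 hw, hmw]
    exact ⟨hm, ζ, η, h1, h2, h3⟩

/-- convexity -/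
theorem V3_convex {p : ℝ} (hp : 0 < p) (hp1 : p < 1) {w₀ : ℂ} (hw : w₀ ≠ 0) :
    Convex ℝ (V 3 p w₀) := by
  rw [V3_eq hp hp1 hw]
  rintro a ⟨hm, ζ₁, η₁, hζ₁, hη₁, rfl⟩ b ⟨-, ζ₂, η₂, hζ₂, hη₂, rfl⟩ s t hs ht hst
  refine ⟨hm, ?_⟩
  set m := mOf p w₀ with hmd
  set ζ : ℂ := (s : ℂ) * ζ₁ + (t : ℂ) * ζ₂ with hζ
  have hst' : (s : ℂ) + t = 1 := by exact_mod_cast hst
  have hζn : ‖ζ‖ ≤ 1 := by
    have := norm_add_le ((s : ℂ) * ζ₁) ((t : ℂ) * ζ₂)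
    rw [norm_mul, norm_mul, Complex.norm_real, Complex.norm_real, Real.norm_of_nonneg hs,
      Real.norm_of_nonneg ht] at this
    nlinarith
  -- the remainder
  set e : ℂ := - conj m * ((s : ℂ) * t * (ζ₁ - ζ₂) ^ 2)
    + ((s : ℂ) * ((1 - ‖ζ₁‖ ^ 2 : ℝ) * η₁) + (t : ℂ) * ((1 - ‖ζ₂‖ ^ 2 : ℝ) * η₂)) with he
  have hpar : s * t * ‖ζ₁ - ζ₂‖ ^ 2 + s * (1 - ‖ζ₁‖ ^ 2) + t * (1 - ‖ζ₂‖ ^ 2) = 1 - ‖ζ‖ ^ 2 := by
    have h1 : ∀ x : ℂ, ‖x‖ ^ 2 = x.re ^ 2 + x.im ^ 2 := by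
      intro x; rw [← Complex.normSq_eq_norm_sq, Complex.normSq_apply]; ring
    rw [h1, h1, h1, h1, hζ]
    simp only [sub_re, sub_im, add_re, add_im, mul_re, mul_im, ofReal_re, ofReal_im]
    have ht' : t = 1 - s := by linarith
    subst ht'
    ring
  have hen : ‖e‖ ≤ 1 - ‖ζ‖ ^ 2 := by
    have n1 := norm_add_le (- conj m * ((s : ℂ) * t * (ζ₁ - ζ₂) ^ 2))
      ((s : ℂ) * ((1 - ‖ζ₁‖ ^ 2 : ℝ) * η₁) + (t : ℂ) * ((1 - ‖ζ₂‖ ^ 2 : ℝ) * η₂))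
    have n2 := norm_add_le ((s : ℂ) * ((1 - ‖ζ₁‖ ^ 2 : ℝ) * η₁)) ((t : ℂ) * ((1 - ‖ζ₂‖ ^ 2 : ℝ) * η₂))
    have q1 : 0 ≤ 1 - ‖ζ₁‖ ^ 2 := by nlinarith [norm_nonneg ζ₁]
    have q2 : 0 ≤ 1 - ‖ζ₂‖ ^ 2 := by nlinarith [norm_nonneg ζ₂]
    have n3 : ‖- conj m * ((s : ℂ) * t * (ζ₁ - ζ₂) ^ 2)‖ ≤ s * t * ‖ζ₁ - ζ₂‖ ^ 2 := by
      rw [norm_mul, norm_neg, Complex.norm_conj, norm_mul, norm_mul, norm_pow, Complex.norm_real,
        Complex.norm_real, Real.norm_of_nonneg hs, Real.norm_of_nonneg ht]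
      have : 0 ≤ s * t * ‖ζ₁ - ζ₂‖ ^ 2 := by positivity
      nlinarith
    have n4 : ‖(s : ℂ) * ((1 - ‖ζ₁‖ ^ 2 : ℝ) * η₁)‖ ≤ s * (1 - ‖ζ₁‖ ^ 2) := by
      rw [norm_mul, norm_mul, Complex.norm_real, Complex.norm_real, Real.norm_of_nonneg hs,
        Real.norm_of_nonneg q1]
      have : 0 ≤ s * (1 - ‖ζ₁‖ ^ 2) := mul_nonneg hs q1
      nlinarith
    have n5 : ‖(t : ℂ) * ((1 - ‖ζ₂‖ ^ 2 : ℝ) * η₂)‖ ≤ t * (1 - ‖ζ₂‖ ^ 2) := by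
      rw [norm_mul, norm_mul, Complex.norm_real, Complex.norm_real, Real.norm_of_nonneg ht,
        Real.norm_of_nonneg q2]
      have : 0 ≤ t * (1 - ‖ζ₂‖ ^ 2) := mul_nonneg ht q2
      nlinarith
    rw [he]
    linarith
  obtain ⟨η, hη, heη⟩ : ∃ η : ℂ, ‖η‖ ≤ 1 ∧ e = (1 - ‖ζ‖ ^ 2 : ℝ) * η := by
    by_cases h2 : 1 - ‖ζ‖ ^ 2 = 0
    · refine ⟨0, by simp, ?_⟩
      rw [h2] at hen
      have : e = 0 := norm_le_zero_iff.mp hen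
      simpa using this
    · have hpos : 0 < 1 - ‖ζ‖ ^ 2 := lt_of_le_of_ne (le_trans (norm_nonneg _) hen) (Ne.symm h2)
      refine ⟨e / (1 - ‖ζ‖ ^ 2 : ℝ), ?_, ?_⟩
      · rw [norm_div, Complex.norm_real, Real.norm_of_nonneg hpos.le, div_le_one hpos]
        exact hen
      · have : ((1 - ‖ζ‖ ^ 2 : ℝ) : ℂ) ≠ 0 := by exact_mod_cast h2
        field_simp
  refine ⟨ζ, η, hζn, hη, ?_⟩
  have hden := den_ne hp hp1 hm
  have key : (2 / 3 : ℂ) * ((1 - ‖ζ‖ ^ 2 : ℝ) * η) = 2 / 3 * e := by rw [heη]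
  rw [Complex.real_smul, Complex.real_smul]
  unfold A3
  rw [mul_div_assoc', mul_div_assoc', ← add_div]
  congr 1
  have e1 : (2 / 3 : ℂ) * ((1 - ‖ζ‖ ^ 2 : ℝ) : ℂ) * η = 2 / 3 * e := by rw [heη]; ring
  rw [e1, he, hζ]
  have ht' : (t : ℂ) = 1 - s := by linear_combination hst'
  rw [ht']
  ring

/-- when two slit functions suffice -/
theorem V3_eq_slit {p : ℝ} (hp : 0 < p) (hp1 : p < 1) {w₀ : ℂ} (hw : w₀ ≠ 0)
    (hm : ‖mOf p w₀‖ ≤ 1)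
    (hb : 4 / 3 * (1 + ‖mOf p w₀‖) ≤ ‖(p : ℂ) + 1 / p - 2 / 3 * mOf p w₀‖) :
    V 3 p w₀ = (fun ζ => A3 p (mOf p w₀) ζ 0) '' closedBall 0 1 := by
  rw [V3_eq hp hp1 hw]
  set m := mOf p w₀ with hmd
  set b : ℂ := (p : ℂ) + 1 / p - 2 / 3 * m with hbd
  have hm0 := norm_nonneg m
  have hbpos : 0 < ‖b‖ := by linarith
  have hb0 : b ≠ 0 := norm_pos_iff.mp hbpos
  ext a
  constructor
  · rintro ⟨-, ζ, η, hζ, hη, rfl⟩
    set x : ℂ := b * ζ - 2 / 3 * conj m * ζ ^ 2 + 2 / 3 * (1 - ‖ζ‖ ^ 2 : ℝ) * η with hx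
    set β : ℝ := 4 / 3 * ‖m‖ / ‖b‖ with hβ
    have hβ0 : 0 ≤ β := by positivity
    have hβb : β * ‖b‖ = 4 / 3 * ‖m‖ := by rw [hβ]; field_simp
    have hβ1 : β < 1 := by
      rw [hβ, div_lt_one hbpos]; linarith
    have hR : 0 ≤ 1 - ‖ζ‖ := by linarith
    have hin : ∀ z ∈ closedBall ζ (1 - ‖ζ‖), ‖z‖ ≤ 1 := by
      intro z hz
      rw [mem_closedBall, dist_eq_norm] at hz
      have := norm_add_le ζ (z - ζ)
      have h2 : ‖z‖ ≤ ‖ζ‖ + ‖z - ζ‖ := by simpa using this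
      linarith
    obtain ⟨ξ, hξ, hfix⟩ := exists_fix (Φ := fun z => (2 / 3 * conj m * z ^ 2 + x) / b) hβ0 hβ1
      (c := ζ) (R := 1 - ‖ζ‖) hR (by
        intro z hz w hw
        have e : (2 / 3 * conj m * z ^ 2 + x) / b - (2 / 3 * conj m * w ^ 2 + x) / b
            = 2 / 3 * conj m * (z + w) * (z - w) / b := by ring
        rw [e, norm_div, norm_mul, norm_mul, norm_mul, Complex.norm_conj, div_le_iff₀ hbpos]
        have n1 : ‖z + w‖ ≤ 2 := by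
          have := norm_add_le z w
          have := hin z hz
          have := hin w hw
          linarith
        have n2 : ‖(2 / 3 : ℂ)‖ = 2 / 3 := by norm_num
        rw [n2]
        have n3 : β * ‖z - w‖ * ‖b‖ = 4 / 3 * ‖m‖ * ‖z - w‖ := by rw [← hβb]; ring
        rw [n3]
        have n4 : 0 ≤ ‖m‖ * ‖z - w‖ := by positivity
        nlinarith) (by
        have e : (2 / 3 * conj m * ζ ^ 2 + x) / b - ζ = 2 / 3 * (1 - ‖ζ‖ ^ 2 : ℝ) * η / b := by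
          rw [hx]; field_simp; ring
        rw [e, norm_div, norm_mul, norm_mul, Complex.norm_real, div_le_iff₀ hbpos]
        have n2 : ‖(2 / 3 : ℂ)‖ = 2 / 3 := by norm_num
        have q1 : 0 ≤ 1 - ‖ζ‖ ^ 2 := by nlinarith [norm_nonneg ζ]
        rw [n2, Real.norm_of_nonneg q1]
        have n3 : (1 - β) * (1 - ‖ζ‖) * ‖b‖ = (‖b‖ - 4 / 3 * ‖m‖) * (1 - ‖ζ‖) := by
          rw [← hβb]; ring
        rw [n3]
        have n4 : 4 / 3 * (1 - ‖ζ‖) ≤ (‖b‖ - 4 / 3 * ‖m‖) * (1 - ‖ζ‖) :=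
          mul_le_mul_of_nonneg_right (by linarith) hR
        have n5 : 2 / 3 * (1 - ‖ζ‖ ^ 2) * ‖η‖ ≤ 2 / 3 * (1 - ‖ζ‖ ^ 2) := by nlinarith
        have n6 : 1 - ‖ζ‖ ^ 2 ≤ 2 * (1 - ‖ζ‖) := by nlinarith [norm_nonneg ζ]
        linarith)
    refine ⟨ξ, by rw [mem_closedBall_zero_iff]; exact hin ξ hξ, ?_⟩
    have h1 : b * ξ - 2 / 3 * conj m * ξ ^ 2 = x := by
      have h2 : 2 / 3 * conj m * ξ ^ 2 + x = ξ * b := by
        have := hfix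
        rwa [div_eq_iff hb0] at this
      linear_combination -h2
    simp only
    unfold A3
    rw [← hbd, mul_zero, add_zero, h1, hx]
  · rintro ⟨ζ, hζ, rfl⟩
    exact ⟨hm, ζ, 0, mem_closedBall_zero_iff.mp hζ, by simp, rfl⟩

theorem A3_inj {p : ℝ} (hp : 0 < p) (hp1 : p < 1) {m : ℂ} (hm : ‖m‖ < 1)
    (hb : 4 / 3 * (1 + ‖m‖) ≤ ‖(p : ℂ) + 1 / p - 2 / 3 * m‖) :
    Set.InjOn (fun ζ => A3 p m ζ 0) (closedBall 0 1) := by
  intro ζ hζ ξ hξ he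
  rw [mem_closedBall_zero_iff] at hζ hξ
  have hden := den_ne hp hp1 hm.le
  have hρ : ((1 - ‖m‖ ^ 2 : ℝ) : ℂ) ≠ 0 := by
    have : (1 - ‖m‖ ^ 2 : ℝ) ≠ 0 := by nlinarith [norm_nonneg m]
    exact_mod_cast this
  simp only [A3, mul_zero, add_zero] at he
  rw [div_left_inj' hden] at he
  have h1 : ((1 - ‖m‖ ^ 2 : ℝ) : ℂ) * ((((p : ℂ) + 1 / p - 2 / 3 * m) - 2 / 3 * conj m * (ζ + ξ))
      * (ζ - ξ)) = 0 := by linear_combination -he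
  rcases mul_eq_zero.mp h1 with h2 | h2
  · exact absurd h2 hρ
  rcases mul_eq_zero.mp h2 with h3 | h3
  · exfalso
    have h4 : (p : ℂ) + 1 / p - 2 / 3 * m = 2 / 3 * conj m * (ζ + ξ) := by linear_combination h3
    rw [h4, norm_mul, norm_mul, Complex.norm_conj] at hb
    have n2 : ‖(2 / 3 : ℂ)‖ = 2 / 3 := by norm_num
    rw [n2] at hb
    have := norm_add_le ζ ξ
    have h5 : ‖m‖ * ‖ζ + ξ‖ ≤ ‖m‖ * 2 := mul_le_mul_of_nonneg_left (by linarith) (norm_nonneg m)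
    nlinarith [norm_nonneg m]
  · exact sub_eq_zero.mp h3

theorem cond_third {p : ℝ} (hp : 0 < p) (hp3 : p ≤ 1 / 3) {m : ℂ} (hm : ‖m‖ ≤ 1) :
    4 / 3 * (1 + ‖m‖) ≤ ‖(p : ℂ) + 1 / p - 2 / 3 * m‖ := by
  have h1 : 10 / 3 ≤ p + 1 / p := by
    have h : 0 ≤ (1 / 3 - p) * (3 - p) / p := by
      apply div_nonneg _ hp.le
      apply mul_nonneg <;> linarith
    have e : (1 / 3 - p) * (3 - p) / p = p + 1 / p - 10 / 3 := by field_simp; ring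
    linarith
  have h2 := norm_sub_norm_le ((p : ℂ) + 1 / p) (2 / 3 * m)
  rw [norm_s hp, norm_mul] at h2
  have n2 : ‖(2 / 3 : ℂ)‖ = 2 / 3 := by norm_num
  rw [n2] at h2
  linarith

set_option maxHeartbeats 1000000 in
/-- sharpness of 1/3 -/
theorem sharp_third {p : ℝ} (hp3 : 1 / 3 < p) (hp1 : p < 1) :
    ∃ w₀ : ℂ, w₀ ≠ 0 ∧ ‖mOf p w₀‖ < 1 ∧
      V 3 p w₀ ≠ (fun ζ => A3 p (mOf p w₀) ζ 0) '' closedBall 0 1 := by
  have hp : 0 < p := by linarith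
  set s : ℝ := p + 1 / p with hs
  have hs2 : 2 < s := s_gt_two hp hp1
  have hs3 : s < 10 / 3 := by
    have h : (1 / 3 - p) * (3 - p) / p < 0 := by
      apply div_neg_of_neg_of_pos _ hp
      apply mul_neg_of_neg_of_pos <;> linarith
    have e : (1 / 3 - p) * (3 - p) / p = p + 1 / p - 10 / 3 := by field_simp; ring
    linarith
  -- choose m
  obtain ⟨μ, hμ0, hμ1, hμ⟩ : ∃ μ : ℝ, 0 < μ ∧ μ < 1 ∧ s - 2 * μ < 4 / 3 := by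
    refine ⟨(1 + (s - 4 / 3) / 2) / 2, by linarith, by linarith, by linarith⟩
  have hmn : ‖(μ : ℂ)‖ = μ := by rw [Complex.norm_real, Real.norm_of_nonneg hμ0.le]
  obtain ⟨w₀, hw, hmw⟩ := exists_w0 hp hp1 (m := (μ : ℂ)) (by rw [hmn]; exact hμ1.le)
  refine ⟨w₀, hw, by rw [hmw, hmn]; exact hμ1, ?_⟩
  intro hV
  rw [hmw] at hV
  -- choose t
  set c : ℝ := 4 / 3 - (s - 2 * μ) with hc
  have hc0 : 0 < c := by rw [hc]; linarith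
  obtain ⟨t, ht0, ht1, htc⟩ : ∃ t : ℝ, 0 < t ∧ t ≤ 1 ∧ t * (2 / 3 * μ + 2 / 3) < c := by
    refine ⟨min 1 (c / 2), by positivity, min_le_left _ _, ?_⟩
    have h1 : min 1 (c / 2) ≤ c / 2 := min_le_right _ _
    have h2 : 2 / 3 * μ + 2 / 3 < 4 / 3 := by linarith
    have h3 : 0 < min 1 (c / 2) := by positivity
    nlinarith
  have hmem : A3 p (μ : ℂ) ((1 - t : ℝ) : ℂ) 1 ∈ V 3 p w₀ := by
    rw [V3_eq hp hp1 hw, hmw]
    refine ⟨by rw [hmn]; exact hμ1.le, _, 1, ?_, by simp, rfl⟩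
    rw [Complex.norm_real, Real.norm_of_nonneg (by linarith)]
    linarith
  rw [hV] at hmem
  obtain ⟨ζ, hζ, he⟩ := hmem
  rw [mem_closedBall_zero_iff] at hζ
  have hden := den_ne hp hp1 (m := (μ : ℂ)) (by rw [hmn]; exact hμ1.le)
  have hρ : ((1 - ‖(μ : ℂ)‖ ^ 2 : ℝ) : ℂ) ≠ 0 := by
    rw [hmn]
    have : (1 - μ ^ 2 : ℝ) ≠ 0 := by nlinarith
    exact_mod_cast this
  simp only [A3, mul_zero, add_zero, mul_one] at he
  rw [div_left_inj' hden] at he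
  have h1 : ((p : ℂ) + 1 / p - 2 / 3 * μ) * ζ - 2 / 3 * conj (μ : ℂ) * ζ ^ 2
      = ((p : ℂ) + 1 / p - 2 / 3 * μ) * ((1 - t : ℝ) : ℂ) - 2 / 3 * conj (μ : ℂ) * ((1 - t : ℝ) : ℂ) ^ 2
      + 2 / 3 * ((1 - ‖((1 - t : ℝ) : ℂ)‖ ^ 2 : ℝ) : ℂ) := by
    apply mul_left_cancel₀ hρ
    linear_combination -he
  have hn : ‖((1 - t : ℝ) : ℂ)‖ ^ 2 = (1 - t) ^ 2 := by
    rw [Complex.norm_real, Real.norm_of_nonneg (by linarith)]
  rw [hn, Complex.conj_ofReal] at h1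
  have hsc : (p : ℂ) + 1 / p = ((s : ℝ) : ℂ) := by rw [hs]; push_cast; ring
  rw [hsc] at h1
  have him := congrArg Complex.im h1
  have hre := congrArg Complex.re h1
  have hq : (2 / 3 : ℂ) = ((2 / 3 : ℝ) : ℂ) := by push_cast; ring
  rw [hq, pow_two, pow_two] at him hre
  simp only [sub_re, sub_im, add_re, add_im, mul_re, mul_im, ofReal_re, ofReal_im, one_re, one_im]
    at him hre
  have hζ2 : ζ.re ^ 2 + ζ.im ^ 2 ≤ 1 := by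
    have : ‖ζ‖ ^ 2 = ζ.re ^ 2 + ζ.im ^ 2 := by
      rw [← Complex.normSq_eq_norm_sq, Complex.normSq_apply]; ring
    rw [← this]
    nlinarith [norm_nonneg ζ]
  have hxr : ζ.re ≤ 1 := by nlinarith [sq_nonneg ζ.im]
  have hxr' : -1 ≤ ζ.re := by nlinarith [sq_nonneg ζ.im]
  have him' : ζ.im * (s - 2 / 3 * μ - 4 / 3 * μ * ζ.re) = 0 := by linear_combination him
  have hpos : 0 < s - 2 / 3 * μ - 4 / 3 * μ * ζ.re := by
    have : μ * ζ.re ≤ μ * 1 := mul_le_mul_of_nonneg_left hxr hμ0.le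
    linarith
  have him0 : ζ.im = 0 := by
    rcases mul_eq_zero.mp him' with h | h
    · exact h
    · linarith
  rw [him0] at hre
  have hre' : (s - 2 / 3 * μ) * ζ.re - 2 / 3 * μ * ζ.re ^ 2 = (s - 2 / 3 * μ) * (1 - t)
      - 2 / 3 * μ * (1 - t) ^ 2 + 2 / 3 * (1 - (1 - t) ^ 2) := by
    linear_combination hre
  -- the left side is at most its value at 1
  have hle : (s - 2 / 3 * μ) * ζ.re - 2 / 3 * μ * ζ.re ^ 2 ≤ (s - 2 / 3 * μ) - 2 / 3 * μ := by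
    have h5 : 0 ≤ s - 2 / 3 * μ - 2 / 3 * μ * (1 + ζ.re) := by
      have : μ * ζ.re ≤ μ * 1 := mul_le_mul_of_nonneg_left hxr hμ0.le
      linarith
    have h6 : 0 ≤ (1 - ζ.re) * (s - 2 / 3 * μ - 2 / 3 * μ * (1 + ζ.re)) :=
      mul_nonneg (by linarith) h5
    have e : (1 - ζ.re) * (s - 2 / 3 * μ - 2 / 3 * μ * (1 + ζ.re)) = (s - 2 / 3 * μ) - 2 / 3 * μ
      - ((s - 2 / 3 * μ) * ζ.re - 2 / 3 * μ * ζ.re ^ 2) := by ring
    linarith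
  have hgt : (s - 2 / 3 * μ) - 2 / 3 * μ < (s - 2 / 3 * μ) * (1 - t)
      - 2 / 3 * μ * (1 - t) ^ 2 + 2 / 3 * (1 - (1 - t) ^ 2) := by
    have : 0 < t * (c - t * (2 / 3 * μ + 2 / 3)) := mul_pos ht0 (by linarith)
    have e : t * (c - t * (2 / 3 * μ + 2 / 3)) = (s - 2 / 3 * μ) * (1 - t)
      - 2 / 3 * μ * (1 - t) ^ 2 + 2 / 3 * (1 - (1 - t) ^ 2) - ((s - 2 / 3 * μ) - 2 / 3 * μ) := by
      rw [hc]; ring
    linarith
  linarith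

end Pool.Agent.MP_8daf13
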